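import Pool.Agent.Q167.LS.FinV
import Pool.Agent.Q167.LS.Fin2
set_option autoImplicit false

/-! # Local smoothing in the mixed norm `L^p_x L²_y` and for superpositions of Klein-Gordon
equations

For `2 ≤ p ≤ 4` and any `s > 0`:

* (vector-valued local smoothing on the line) the solutions `u_ω` of the Klein-Gordon equations
  `(∂ₜ² - ∂ₓ² + 4π² a(ω)²) u_ω = 0` on `ℝ × ℝ`, where `ω` runs through an arbitrary measure space
  `(Ω, μ)` and `a(ω) > 0` are arbitrary masses, satisfy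
  `∫_1^2 ∫_ℝ (∫_Ω |u_ω(t, x)|² dμ)^(p/2) dx dt ≤ C ∫_ℝ (∫_Ω |g_ω(x)|² dμ)^(p/2) dx`
  with a constant `C = C(s, p)`, where `g_ω` are the data measured in Sobolev norms of order `s`
  adapted to the equations;
* in every dimension `d = m + 1 ≥ 2` the estimate of Q1 holds for all data with any `s > 0` in
  place of `s_p - σ` if `L^p(ℝ^d)` is replaced on both sides by the mixed norm `L^p` in one
  variable and `L²` in the others.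
-/

open MeasureTheory Set
open scoped ENNReal FourierTransform RealInnerProductSpace

namespace Pool.Agent.Results.MP_ee74d2_an.MixedNorm

/-- `√(ξ² + a²)` -/
noncomputable def om (a ξ : ℝ) : ℝ := Real.sqrt (ξ ^ 2 + a ^ 2)

/-- For `τ = 0`: the solution `u(t, x)` of the Klein-Gordon equation
`(∂ₜ² - ∂ₓ² + 4π² a²) u = 0` on the line with data
`u(0) = (1 - ∂ₓ² + 4π² a²)^(-s/2) g₀`, `∂ₜu(0) = (1 - ∂ₓ² + 4π² a²)^((1-s)/2) g₁`, i.e. the inverse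
Fourier transform of `cos(2πtr) (1+4π²r²)^(-s/2) g₀^(ξ) + sin(2πtr)/(2πr) (1+4π²r²)^((1-s)/2) g₁^(ξ)`
with `r = √(ξ² + a²)`. For `τ > 0`: the same with the factor `exp(-τr²)`. -/
noncomputable def kg (a s τ : ℝ) (g₀ g₁ : ℝ → ℂ) (t x : ℝ) : ℂ :=
  ∫ ξ : ℝ, Complex.exp (((2 * Real.pi * (x * ξ) : ℝ) : ℂ) * Complex.I) *
    (((Real.exp (-(τ * om a ξ ^ 2)) : ℝ) : ℂ) *
      (((Real.cos (2 * Real.pi * (t * om a ξ)) *
          (1 + 4 * Real.pi ^ 2 * om a ξ ^ 2) ^ (-(s / 2)) : ℝ) : ℂ) * 𝓕 g₀ ξ +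
       ((Real.sin (2 * Real.pi * (t * om a ξ)) / (2 * Real.pi * om a ξ) *
          (1 + 4 * Real.pi ^ 2 * om a ξ ^ 2) ^ ((1 - s) / 2) : ℝ) : ℂ) * 𝓕 g₁ ξ))

/-- `ℝ^d` -/
abbrev E (d : ℕ) : Type := EuclideanSpace ℝ (Fin d)

/-- The point `(y, x)` of `ℝ^(m+1)`. -/
def pt {m : ℕ} (y : Fin m → ℝ) (x : ℝ) : E (m + 1) :=
  WithLp.toLp 2 (Fin.snoc (α := fun _ => ℝ) y x)

/-- The symbol `(1 + 4π²|ζ|²)^(a/2)` of `(I - Δ)^(a/2)`. -/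
noncomputable def bessel {d : ℕ} (a : ℝ) (ζ : E d) : ℝ :=
  (1 + 4 * Real.pi ^ 2 * ‖ζ‖ ^ 2) ^ (a / 2)

/-- For `τ = 0`: the solution `u(t, z)` of the wave equation on `ℝ^d` with data
`u(0) = (I - Δ)^(-s/2) f₀`, `∂ₜu(0) = (I - Δ)^((1-s)/2) f₁`, i.e. the inverse Fourier transform of
`cos(2πt|ζ|) (1+4π²|ζ|²)^(-s/2) f₀^(ζ) + sin(2πt|ζ|)/(2π|ζ|) (1+4π²|ζ|²)^((1-s)/2) f₁^(ζ)`.
For `τ > 0`: the same with the factor `exp(-τ|ζ|²)` (the solution regularised by the heat flow). -/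
noncomputable def wave {d : ℕ} (s τ : ℝ) (f₀ f₁ : E d → ℂ) (t : ℝ) (z : E d) : ℂ :=
  ∫ ζ : E d, Complex.exp (((2 * Real.pi * ⟪z, ζ⟫ : ℝ) : ℂ) * Complex.I) *
    (((Real.exp (-(τ * ‖ζ‖ ^ 2)) : ℝ) : ℂ) *
      (((Real.cos (2 * Real.pi * (t * ‖ζ‖)) * bessel (-s) ζ : ℝ) : ℂ) * 𝓕 f₀ ζ +
       ((Real.sin (2 * Real.pi * (t * ‖ζ‖)) / (2 * Real.pi * ‖ζ‖) * bessel (1 - s) ζ : ℝ) : ℂ) *
        𝓕 f₁ ζ))

/-- The mixed norm `L^p` in the last variable, `L²` in the others: `∫_x (∫_y |f(y, x)|²)^(p/2)`. -/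
noncomputable def mixed {m : ℕ} (p : ℝ) (f : E (m + 1) → ℂ) : ℝ≥0∞ :=
  ∫⁻ x : ℝ, (∫⁻ y : Fin m → ℝ, ‖f (pt y x)‖ₑ ^ 2) ^ (p / 2)

/-- **Local smoothing for superpositions of Klein-Gordon equations on the line, and in the mixed
norm `L^p_x L²_y` in all dimensions.** -/
theorem result (s p : ℝ) (hs : 0 < s) (hp : 2 ≤ p) (hp4 : p ≤ 4) :
    (∃ C : ℝ, 0 < C ∧ ∀ (Ω : Type) [MeasurableSpace Ω] (μ : Measure Ω) [SFinite μ] (a : Ω → ℝ)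
      (g₀ g₁ : Ω → ℝ → ℂ), Measurable a → (∀ ω, 0 < a ω) →
      Measurable (Function.uncurry g₀) → Measurable (Function.uncurry g₁) →
      (∀ ω, Integrable (g₀ ω)) → (∀ ω, Integrable (g₁ ω)) → ∀ τ : ℝ, 0 ≤ τ → τ ≤ 1 →
      (0 < τ ∨ ∀ ω,
        Integrable (fun ξ => (((1 + 4 * Real.pi ^ 2 * om (a ω) ξ ^ 2) ^ (-(s / 2)) : ℝ) : ℂ) *
          𝓕 (g₀ ω) ξ) ∧
        Integrable (fun ξ => (((1 + 4 * Real.pi ^ 2 * om (a ω) ξ ^ 2) ^ (-(s / 2)) : ℝ) : ℂ) *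
          𝓕 (g₁ ω) ξ)) →
      ∫⁻ t in Icc (1 : ℝ) 2, ∫⁻ x : ℝ,
        (∫⁻ ω, ‖kg (a ω) s τ (g₀ ω) (g₁ ω) t x‖ₑ ^ 2 ∂μ) ^ (p / 2) ≤
        ENNReal.ofReal C * ((∫⁻ x : ℝ, (∫⁻ ω, ‖g₀ ω x‖ₑ ^ 2 ∂μ) ^ (p / 2)) +
          ∫⁻ x : ℝ, (∫⁻ ω, ‖g₁ ω x‖ₑ ^ 2 ∂μ) ^ (p / 2))) ∧
    ∀ m : ℕ, 1 ≤ m → ∃ C : ℝ, 0 < C ∧ ∀ f₀ f₁ : E (m + 1) → ℂ, Integrable f₀ → Integrable f₁ →
      ∀ τ : ℝ, 0 ≤ τ → τ ≤ 1 →
      (0 < τ ∨ (Integrable (fun ζ => ((bessel (-s) ζ : ℝ) : ℂ) * 𝓕 f₀ ζ) ∧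
        Integrable (fun ζ => ((bessel (-s) ζ : ℝ) : ℂ) * 𝓕 f₁ ζ))) →
      ∫⁻ t in Icc (1 : ℝ) 2, mixed p (wave s τ f₀ f₁ t) ≤
        ENNReal.ofReal C * (mixed p f₀ + mixed p f₁) := by
  open Pool.Agent.TH280.LS Pool.Agent.Q167.LS in
  have hft : ∀ g : ℝ → ℂ, 𝓕 g = ft g := by
    intro g
    funext ξ
    exact (ft_eq g ξ).symm
  refine ⟨?_, ?_⟩
  · obtain ⟨C, hC, h⟩ := kg_all s p hs hp hp4
    refine ⟨C, hC, ?_⟩
    intro Ω _ μ _ a g₀ g₁ ha hpos hg0 hg1 hi0 hi1 τ hτ hτ1 hcase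
    have key := h μ a g₀ g₁ ha (Filter.Eventually.of_forall hpos) hg0 hg1 hi0 hi1 τ hτ hτ1 (by
      simp only [hft] at hcase
      exact hcase)
    have hw : ∀ ω t x, kg (a ω) s τ (g₀ ω) (g₁ ω) t x = kgv (a ω) s τ (g₀ ω) (g₁ ω) t x := by
      intro ω t x
      unfold kg kgv
      simp only [hft]
      rfl
    simp only [hw]
    exact key
  · intro m hm
    obtain ⟨C, hC, h⟩ := mixed_all m s p hm hs hp hp4
    refine ⟨C, hC, ?_⟩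
    intro f₀ f₁ hf0 hf1 τ hτ hτ1 hcase
    have hneg : -s / 2 = -(s / 2) := by ring
    have key := h (fun _ => 1) measurable_const (fun _ => by simp) f₀ f₁ hf0 hf1 τ hτ hτ1 (by
      unfold bessel at hcase
      rw [hneg] at hcase
      exact hcase)
    have hw : ∀ t z, wave s τ f₀ f₁ t z = wvs m (fun _ => 1) s τ f₀ f₁ t z := by
      intro t z
      unfold wave wvs bessel e
      rw [hneg]
      simp only [Complex.ofReal_one, one_mul]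
    have hpt : ∀ (y : Fin m → ℝ) (x : ℝ), pt y x = (Zc m).symm (x, y) := by
      intro y x
      rw [MeasurableEquiv.eq_symm_apply, Zc_apply]
      refine Prod.ext ?_ ?_
      · change Fin.snoc (α := fun _ => ℝ) y x (Fin.last m) = x
        rw [Fin.snoc_last]
      · funext i
        change Fin.snoc (α := fun _ => ℝ) y x i.castSucc = y i
        rw [Fin.snoc_castSucc]
    have hmx : ∀ f : E (m + 1) → ℂ, mixed p f = Mx m p f := by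
      intro f
      unfold mixed Mx
      simp only [hpt]
    have hwf : ∀ t, wave s τ f₀ f₁ t = wvs m (fun _ => 1) s τ f₀ f₁ t := fun t =>
      funext fun z => hw t z
    simp only [hwf, hmx]
    exact key

end Pool.Agent.Results.MP_ee74d2_an.MixedNorm
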