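import Pool.Agent.Q167.LS.Hol
set_option autoImplicit false

/-! # Local smoothing for data which are random in all variables but one

The estimate of Q1 on average, in every dimension `d = m + 1 ≥ 2`, for `2 ≤ p ≤ 4` and with any
`s > 0` in place of `s_p - σ`, for arbitrary data on `ℝ^d` of which only the dependence on the first
`m` variables is randomised: the space of the transverse frequencies `(ζ_i)_{i<m}` is divided into
countably many measurable sets `Q_k` of measure at most `V`, and the part of the data with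
transverse frequencies in `Q_k` is multiplied by `ε_k`, where the `ε_k` are independent centred
random variables with `|ε_k| ≤ 1`. The dependence of the data on the last variable remains
deterministic.

For `p_d ≤ p ≤ 4` this is the full range `σ < 1/p` of the conjecture (for `p > p_d` even more). For
`d ≥ 3` all exponents for which Q1 is open are below `4`.
-/

open MeasureTheory Set ProbabilityTheory
open scoped ENNReal FourierTransform RealInnerProductSpace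

namespace Pool.Agent.Results.MP_ee74d2_an.RandomData

/-- `ℝ^d` -/
abbrev E (d : ℕ) : Type := EuclideanSpace ℝ (Fin d)

/-- The point `(y, x)` of `ℝ^(m+1)`. -/
def pt {m : ℕ} (y : Fin m → ℝ) (x : ℝ) : E (m + 1) :=
  WithLp.toLp 2 (Fin.snoc (α := fun _ => ℝ) y x)

/-- The symbol `(1 + 4π²|ζ|²)^(a/2)` of `(I - Δ)^(a/2)`. -/
noncomputable def bessel {d : ℕ} (a : ℝ) (ζ : E d) : ℝ :=
  (1 + 4 * Real.pi ^ 2 * ‖ζ‖ ^ 2) ^ (a / 2)

/-- For `τ = 0`: the solution `u(t, z)` of the wave equation on `ℝ^(m+1)` with data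
`u(0) = (I - Δ)^(-s/2) P f₀`, `∂ₜu(0) = (I - Δ)^((1-s)/2) P f₁`, where `P` is the Fourier multiplier
with symbol `σ(ζ_0, …, ζ_{m-1})`, i.e. the inverse Fourier transform of
`σ(ζ_0, …, ζ_{m-1}) (cos(2πt|ζ|) (1+4π²|ζ|²)^(-s/2) f₀^(ζ)
  + sin(2πt|ζ|)/(2π|ζ|) (1+4π²|ζ|²)^((1-s)/2) f₁^(ζ))`.
For `τ > 0`: the same with the factor `exp(-τ|ζ|²)` (the solution regularised by the heat flow). -/
noncomputable def wave {m : ℕ} (σ : (Fin m → ℝ) → ℝ) (s τ : ℝ) (f₀ f₁ : E (m + 1) → ℂ) (t : ℝ)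
    (z : E (m + 1)) : ℂ :=
  ∫ ζ : E (m + 1), Complex.exp (((2 * Real.pi * ⟪z, ζ⟫ : ℝ) : ℂ) * Complex.I) *
    (((σ (fun i => ζ i.castSucc) : ℝ) : ℂ) * (((Real.exp (-(τ * ‖ζ‖ ^ 2)) : ℝ) : ℂ) *
      (((Real.cos (2 * Real.pi * (t * ‖ζ‖)) * bessel (-s) ζ : ℝ) : ℂ) * 𝓕 f₀ ζ +
       ((Real.sin (2 * Real.pi * (t * ‖ζ‖)) / (2 * Real.pi * ‖ζ‖) * bessel (1 - s) ζ : ℝ) : ℂ) *
        𝓕 f₁ ζ)))

/-- The mixed norm `L^p` in the last variable, `L²` in the others: `∫_x (∫_y |f(y, x)|²)^(p/2)`. -/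
noncomputable def mixed {m : ℕ} (p : ℝ) (f : E (m + 1) → ℂ) : ℝ≥0∞ :=
  ∫⁻ x : ℝ, (∫⁻ y : Fin m → ℝ, ‖f (pt y x)‖ₑ ^ 2) ^ (p / 2)

/-- All slices of `f` orthogonal to the last axis have supports of measure at most `b`. -/
def SmallSlices {m : ℕ} (b : ℝ) (f : E (m + 1) → ℂ) : Prop :=
  ∀ x : ℝ, volume {y : Fin m → ℝ | f (pt y x) ≠ 0} ≤ ENNReal.ofReal b

/-- **Local smoothing for data which are random in all variables but one.** -/
theorem result (m : ℕ) (hm : 1 ≤ m) (s p : ℝ) (hs : 0 < s) (hp : 2 ≤ p) (hp4 : p ≤ 4) :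
    ∃ C : ℝ, 0 < C ∧ ∀ (Ω : Type) [MeasurableSpace Ω] (P : Measure Ω) [IsProbabilityMeasure P]
      (ε : ℕ → Ω → ℝ) (κ : (Fin m → ℝ) → ℕ) (V : ℝ),
      (∀ k, Measurable (ε k)) → iIndepFun ε P → (∀ k ω, |ε k ω| ≤ 1) →
      (∀ k, ∫ ω, ε k ω ∂P = 0) → Measurable κ → 0 < V →
      (∀ k, volume {η | κ η = k} ≤ ENNReal.ofReal V) →
      ∀ f₀ f₁ : E (m + 1) → ℂ, Integrable f₀ → Integrable f₁ → ∀ τ : ℝ, 0 ≤ τ → τ ≤ 1 →
      (0 < τ ∨ (Integrable (fun ζ => ((bessel (-s) ζ : ℝ) : ℂ) * 𝓕 f₀ ζ) ∧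
        Integrable (fun ζ => ((bessel (-s) ζ : ℝ) : ℂ) * 𝓕 f₁ ζ))) →
      (∫⁻ ω, ∫⁻ t in Icc (1 : ℝ) 2, ∫⁻ z,
          ‖wave (fun η => ε (κ η) ω) s τ f₀ f₁ t z‖ₑ ^ p ∂volume ∂volume ∂P ≤
        ENNReal.ofReal (C * V ^ (p / 2 - 1)) * (mixed p f₀ + mixed p f₁)) ∧
      ∀ b : ℝ, 0 < b → SmallSlices b f₀ → SmallSlices b f₁ →
        ∫⁻ ω, ∫⁻ t in Icc (1 : ℝ) 2, ∫⁻ z,
          ‖wave (fun η => ε (κ η) ω) s τ f₀ f₁ t z‖ₑ ^ p ∂volume ∂volume ∂P ≤
        ENNReal.ofReal (C * (V * b) ^ (p / 2 - 1)) *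
          ((∫⁻ z, ‖f₀ z‖ₑ ^ p) + ∫⁻ z, ‖f₁ z‖ₑ ^ p) := by
  open Pool.Agent.TH280.LS Pool.Agent.Q167.LS in
  obtain ⟨C, hC, h⟩ := gen_all m s p hm hs hp hp4
  have hK := K0_pos
  refine ⟨C * (16 * K0), by positivity, ?_⟩
  intro Ω _ P _ ε κ V h1 h2 h3 h4 h5 hV h6 f₀ f₁ hf0 hf1 τ hτ hτ1 hcase
  have hgood := rand_good (P := P) h1 h2 (fun k ω => abs_le.1 (h3 k ω)) h4 h5
    ENNReal.ofReal_ne_top h6 hp hp4
  have hneg : -s / 2 = -(s / 2) := by ring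
  have key := h P _ _ hgood f₀ f₁ hf0 hf1 τ hτ hτ1 (by
    unfold bessel at hcase
    rw [hneg] at hcase
    exact hcase)
  have hw : ∀ (σ : (Fin m → ℝ) → ℝ) t z, wave σ s τ f₀ f₁ t z = wvs m σ s τ f₀ f₁ t z := by
    intro σ t z
    unfold wave wvs bessel e
    rw [hneg]
    simp only [Zc_apply]
  have hpt : ∀ (y : Fin m → ℝ) (x : ℝ), pt y x = (Zc m).symm (x, y) := by
    intro y x
    rw [MeasurableEquiv.eq_symm_apply, Zc_apply]
    refine Prod.ext ?_ ?_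
    · change Fin.snoc (α := fun _ => ℝ) y x (Fin.last m) = x
      rw [Fin.snoc_last]
    · funext i
      change Fin.snoc (α := fun _ => ℝ) y x i.castSucc = y i
      rw [Fin.snoc_castSucc]
  have hmx : ∀ f : E (m + 1) → ℂ, mixed p f = Mx m p f := by
    intro f
    unfold mixed Mx
    simp only [hpt]
  have hconst : ENNReal.ofReal C * (ENNReal.ofReal (16 * K0) * ENNReal.ofReal V ^ (p / 2 - 1)) =
      ENNReal.ofReal (C * (16 * K0) * V ^ (p / 2 - 1)) := by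
    rw [ENNReal.ofReal_rpow_of_pos hV, ← mul_assoc, ← ENNReal.ofReal_mul hC.le,
      ← ENNReal.ofReal_mul (by positivity)]
  rw [hconst] at key
  simp only [hw]
  refine ⟨?_, ?_⟩
  · rw [hmx, hmx]
    exact key
  · intro b hb hb0 hb1
    unfold SmallSlices at hb0 hb1
    simp only [hpt] at hb0 hb1
    have k0 := Mx_le hf0 hp ENNReal.ofReal_ne_top hb0
    have k1 := Mx_le hf1 hp ENNReal.ofReal_ne_top hb1
    refine key.trans ?_
    refine (mul_le_mul' le_rfl (add_le_add k0 k1)).trans (le_of_eq ?_)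
    rw [← mul_add, ← mul_assoc, ENNReal.ofReal_rpow_of_pos hb, ← ENNReal.ofReal_mul (by positivity),
      Real.mul_rpow hV.le hb.le, mul_assoc]

end Pool.Agent.Results.MP_ee74d2_an.RandomData
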